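import Pool.Agent.Helper4.WS.Sec

/-!
# R-equivalence on families of complete intersections over an arbitrary base

Let `k` be a `C₁` field which has an extension of every prime degree (for instance a finite field, `ℂ(t)` or
`ℂ((t))`), `Y` an arbitrary closed subscheme of `ℙ^(m-1)` over `k`, and `X` the closed subscheme of `Y × ℙ^(n-1)` defined by
forms `F_1, …, F_r` of degrees `d_1, …, d_r ≥ 1` in the coordinates of `ℙ^(n-1)` and of arbitrary degrees `c_1, …, c_r` in the
coordinates of `ℙ^(m-1)`. If `∑ d_j ^ 2 < n` then the map `X(k)/R → Y(k)/R` is bijective. There is no assumption on the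
singularities of `X` and `Y` or on the degenerate fibres. For instance `X(k)/R` has one element for all hypersurfaces `X` of
bidegree `(c, d)` in `ℙ^(m-1) × ℙ^(n-1)` with `d ^ 2 < n`, for all `c` and `m`.

Proof. Let a rational curve `ℙ¹ → Y` and points `x`, `x'` of the fibres of `X` over its points `y`, `y'` be given. There is a
section of the family over `ℙ¹`: the coefficients of forms of degree `S` with `F_j = 0` are the solutions of a system
of equations, and for large `S` the number of the unknowns is larger than the sum of the degrees of the equations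
(theorem of Lang; as in his proof that `k(t)` is a `C₂` field). A section of the least degree is defined at `y` and `y'`. The
points `x` and `x'` are joined to its points over `y` and `y'`, by chains of two lines in the fibres.
-/

set_option autoImplicit false

universe u

namespace Pool.Agent.Results.MP_b5db37_ag.FamiliesOverAnyBase

open MvPolynomial

/-- The field `k` is `C₁`: every form of degree `d ≥ 1` in `n > d` variables over `k` has a nontrivial zero. -/
def IsC1 (k : Type u) [Field k] : Prop :=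
  ∀ (n d : ℕ) (f : MvPolynomial (Fin n) k), 1 ≤ d → d < n → f.IsHomogeneous d →
    ∃ x : Fin n → k, x ≠ 0 ∧ eval x f = 0

variable {k : Type u} [Field k] {m n q r : ℕ}

/-- The coordinate vectors over `k` of the rational points of the closed subscheme `Y : G 0 = ⋯ = G (q - 1) = 0` of
`ℙ^(m-1)`. (Proportional vectors are joined by a constant map, see `LinkY`.) -/
def PtY (G : Fin q → MvPolynomial (Fin m) k) : Type u := {y : Fin m → k // y ≠ 0 ∧ ∀ l, eval y (G l) = 0}

/-- The pairs of coordinate vectors over `k` of the rational points of the closed subscheme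
`X : F 0 = ⋯ = F (r - 1) = 0` of `Y × ℙ^(n-1)`. -/
def PtX (G : Fin q → MvPolynomial (Fin m) k) (F : Fin r → MvPolynomial (Fin m ⊕ Fin n) k) : Type u :=
  {p : (Fin m → k) × (Fin n → k) // p.1 ≠ 0 ∧ p.2 ≠ 0 ∧ (∀ l, eval p.1 (G l) = 0) ∧
    ∀ j, eval (Sum.elim p.1 p.2) (F j) = 0}

/-- The points of `Y` with coordinate vectors `y`, `y'` lie in the image of a rational map `ℙ¹ → Y` over `k`: it is given by
forms `ψ i` of one degree `M` in two variables, and the points are `ψ(s)` and `ψ(t)`. -/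
def LinkY (G : Fin q → MvPolynomial (Fin m) k) (y y' : Fin m → k) : Prop :=
  ∃ (M : ℕ) (ψ : Fin m → MvPolynomial (Fin 2) k), (∀ i, (ψ i).IsHomogeneous M) ∧ (∀ l, bind₁ ψ (G l) = 0) ∧
    ∃ (s t : Fin 2 → k) (b c : k), s ≠ 0 ∧ t ≠ 0 ∧ b ≠ 0 ∧ c ≠ 0 ∧ (∀ i, eval s (ψ i) = b * y i) ∧
      ∀ i, eval t (ψ i) = c * y' i

/-- The points of `X` with coordinate vectors `p`, `p'` lie in the image of a rational map `ℙ¹ → X` over `k`: it is given
by forms `ψ i` of one degree `M` and `φ i` of one degree `N` in two variables. -/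
def LinkX (G : Fin q → MvPolynomial (Fin m) k) (F : Fin r → MvPolynomial (Fin m ⊕ Fin n) k)
    (p p' : (Fin m → k) × (Fin n → k)) : Prop :=
  ∃ (M N : ℕ) (ψ : Fin m → MvPolynomial (Fin 2) k) (φ : Fin n → MvPolynomial (Fin 2) k),
    (∀ i, (ψ i).IsHomogeneous M) ∧ (∀ i, (φ i).IsHomogeneous N) ∧ (∀ l, bind₁ ψ (G l) = 0) ∧
    (∀ j, bind₁ (Sum.elim ψ φ) (F j) = 0) ∧
    ∃ (s t : Fin 2 → k) (b c b' c' : k), s ≠ 0 ∧ t ≠ 0 ∧ b ≠ 0 ∧ c ≠ 0 ∧ b' ≠ 0 ∧ c' ≠ 0 ∧
      (∀ i, eval s (ψ i) = b * p.1 i) ∧ (∀ i, eval s (φ i) = b' * p.2 i) ∧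
      (∀ i, eval t (ψ i) = c * p'.1 i) ∧ ∀ i, eval t (φ i) = c' * p'.2 i

/-- The map `X(k)/R → Y(k)/R`, where `X(k)/R`, `Y(k)/R` are the quotients by the equivalence relations generated by
`LinkX`, `LinkY`. -/
def projR (G : Fin q → MvPolynomial (Fin m) k) (F : Fin r → MvPolynomial (Fin m ⊕ Fin n) k) :
    Quot (fun A B : PtX G F => LinkX G F A.1 B.1) → Quot (fun A B : PtY G => LinkY G A.1 B.1) :=
  Quot.map (fun p => ⟨p.1.1, p.2.1, p.2.2.2.1⟩) fun _ _ ⟨M, _, ψ, _, h1, _, h3, _, s, t, b, c, _, _, h5, h6, h7, h8,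
    _, _, h9, _, h10, _⟩ => ⟨M, ψ, h1, h3, s, t, b, c, h5, h6, h7, h8, h9, h10⟩

/-- the forms of the fibre over `y` -/
noncomputable def fib (F : Fin r → MvPolynomial (Fin m ⊕ Fin n) k) (y : Fin m → k) (j : Fin r) :
    MvPolynomial (Fin n) k := aeval (Sum.elim (fun i => C (y i)) X) (F j)

theorem aeval_fib {A : Type*} [CommRing A] [Algebra k A] (F : Fin r → MvPolynomial (Fin m ⊕ Fin n) k)
    (y : Fin m → k) (j : Fin r) (φ : Fin n → A) :
    aeval φ (fib F y j) = aeval (Sum.elim (fun i => algebraMap k A (y i)) φ) (F j) := by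
  have e : (aeval φ).comp (aeval (Sum.elim (fun i => C (y i)) X : Fin m ⊕ Fin n → MvPolynomial (Fin n) k)) =
      (aeval (Sum.elim (fun i => algebraMap k A (y i)) φ) : MvPolynomial (Fin m ⊕ Fin n) k →ₐ[k] A) := by
    apply MvPolynomial.algHom_ext
    intro i
    rcases i with i | i
    · rw [AlgHom.comp_apply, aeval_X, aeval_X]
      simp
    · rw [AlgHom.comp_apply, aeval_X, aeval_X]
      simp
  rw [← e]
  rfl

theorem fib_hom {F : Fin r → MvPolynomial (Fin m ⊕ Fin n) k} {d : Fin r → ℕ}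
    (h1 : ∀ j, IsWeightedHomogeneous (Pool.Agent.Helper4.WS.w1 m n) (F j) (d j)) (y : Fin m → k) (j : Fin r) :
    (fib F y j).IsHomogeneous (d j) := by
  refine Pool.Agent.Helper4.WS.hom_bind (h1 j) _ ?_
  rintro (i | i)
  · exact isHomogeneous_C _ _
  · exact isHomogeneous_X _ _

theorem const_bind (G : MvPolynomial (Fin m) k) (y : Fin m → k) (h : eval y G = 0) :
    bind₁ (fun i => (C (y i) : MvPolynomial (Fin 2) k)) G = 0 := by
  have e := MvPolynomial.aeval_algebraMap_apply (MvPolynomial (Fin 2) k) y G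
  have e2 : aeval y G = 0 := h
  rw [e2, map_zero] at e
  exact e

/-- links in a fibre -/
theorem link_fib {G : Fin q → MvPolynomial (Fin m) k} {F : Fin r → MvPolynomial (Fin m ⊕ Fin n) k}
    {y : Fin m → k} (hy : ∀ l, eval y (G l) = 0) {x R : Fin n → k}
    (h : Pool.Agent.Helper4.WR.Lnk (1 : Fin n → ℕ) (fib F y) x R) : LinkX G F (y, x) (y, R) := by
  obtain ⟨φ, h1, h2, s, t, b, c, h3, h4, h5, h6, h7, h8⟩ := h
  refine ⟨0, 1, fun i => C (y i), φ, fun i => isHomogeneous_C _ _, fun i => h1 i, fun l => const_bind _ _ (hy l),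
    fun j => ?_, s, t, 1, 1, b, c, h3, h4, one_ne_zero, one_ne_zero, h5, h6, fun i => by simp, fun i => ?_,
    fun i => by simp, fun i => ?_⟩
  · rw [← h2 j]
    exact (aeval_fib F y j φ).symm
  · simpa using h7 i
  · simpa using h8 i

theorem result_aux (hk : Pool.Agent.K369.IsC1 k) (hn : ∀ e, 1 ≤ e → Pool.Agent.K369.HasNormic k e)
    (G : Fin q → MvPolynomial (Fin m) k) (e : Fin q → ℕ) (hG : ∀ l, (G l).IsHomogeneous (e l))
    (F : Fin r → MvPolynomial (Fin m ⊕ Fin n) k) (c d : Fin r → ℕ) (hd : ∀ j, 1 ≤ d j)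
    (h1 : ∀ j, IsWeightedHomogeneous (Pool.Agent.Helper4.WS.w1 m n) (F j) (d j))
    (h2 : ∀ j, IsWeightedHomogeneous (Pool.Agent.Helper4.WS.w2 m n) (F j) (c j)) (hsum : ∑ j, d j ^ 2 < n) :
    Function.Bijective (projR G F) := by
  classical
  have hfh : ∀ y j, IsWeightedHomogeneous (1 : Fin n → ℕ) (fib F y j) (d j) := fun y j => fib_hom h1 y j
  have hs1 : ∑ j, d j ^ 2 < ∑ i : Fin n, (1 : Fin n → ℕ) i ^ 2 := by simpa using hsum
  have hone : ∀ i : Fin n, 1 ≤ (1 : Fin n → ℕ) i := fun i => le_rfl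
  have ch := fun (y : Fin m → k) (P Q : Fin n → k) (hP : ∀ j, eval P (fib F y j) = 0)
      (hQ : ∀ j, eval Q (fib F y j) = 0) =>
    Pool.Agent.Helper4.WR.chain hk hn hone hd (hfh y)
      (fun x _ hx => funext fun i => hx i rfl) hs1 P Q hP hQ
  have hev : ∀ (y : Fin m → k) (x : Fin n → k) (j : Fin r),
      eval x (fib F y j) = eval (Sum.elim y x) (F j) := fun y x j => aeval_fib F y j x
  -- the points of a fibre
  have fibre : ∀ (p p' : PtX G F), p.1.1 = p'.1.1 →
      (Quot.mk (fun A B : PtX G F => LinkX G F A.1 B.1) p) = Quot.mk _ p' := by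
    rintro ⟨⟨y, x⟩, hp1, hp2, hp3, hp4⟩ ⟨⟨y', x'⟩, hq1, hq2, hq3, hq4⟩ hyy
    change y = y' at hyy
    subst hyy
    obtain ⟨R, hR, hR0, l1, l2⟩ := ch y x x' (fun j => by rw [hev]; exact hp4 j) (fun j => by rw [hev]; exact hq4 j)
    let z : PtX G F := ⟨(y, R), hp1, hR, hp3, fun j => by rw [← hev]; exact hR0 j⟩
    have s1 : (Quot.mk (fun A B : PtX G F => LinkX G F A.1 B.1) ⟨(y, x), hp1, hp2, hp3, hp4⟩) = Quot.mk _ z :=
      Quot.sound (link_fib hp3 l1)
    have s2 : (Quot.mk (fun A B : PtX G F => LinkX G F A.1 B.1) ⟨(y, x'), hq1, hq2, hq3, hq4⟩) = Quot.mk _ z :=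
      Quot.sound (link_fib hp3 l2)
    exact s1.trans s2.symm
  have surj : ∀ y : PtY G, ∃ p : PtX G F, p.1.1 = y.1 := by
    intro y
    have h0 : ∀ j, eval (0 : Fin n → k) (fib F y.1 j) = 0 := fun j =>
      Pool.Agent.Helper4.WR.eval_zero' hone (hd j) (hfh y.1 j)
    obtain ⟨R, hR, hR0, -, -⟩ := ch y.1 0 0 h0 h0
    exact ⟨⟨(y.1, R), y.2.1, hR, y.2.2, fun j => by rw [← hev]; exact hR0 j⟩, rfl⟩
  have key : ∀ (p p' : PtX G F), LinkY G p.1.1 p'.1.1 →
      (Quot.mk (fun A B : PtX G F => LinkX G F A.1 B.1) p) = Quot.mk _ p' := by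
    rintro p p' ⟨M, ψ, hψ, hψG, s, t, b, b', hs, ht, hb, hb', es, et⟩
    let L : Fin 2 → Polynomial k := fun w => Polynomial.C (t w) * Polynomial.X + Polynomial.C (s w)
    have hLdeg : ∀ w, (L w).natDegree ≤ 1 := fun w => Polynomial.natDegree_linear_le
    let g : Fin m → Polynomial k := fun i => aeval L (ψ i)
    have hgt : ∀ i, Pool.Agent.Helper4.WR.Top (g i) (1 * M) (eval (fun w => (L w).coeff (1 * (1 : Fin 2 → ℕ) w)) (ψ i)) :=
      fun i => Pool.Agent.Helper4.WR.top_aeval (a := (1 : Fin 2 → ℕ)) (hψ i) 1 L (fun w => by simpa using hLdeg w)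
    have hgM : ∀ i, (g i).coeff M = b' * p'.1.1 i := fun i => by
      have h := (hgt i).2
      rw [one_mul] at h
      rw [h, ← et i]
      congr 2
      funext w
      simp [L]
    have hgdeg : ∀ i, (g i).natDegree ≤ M := fun i => by have h := (hgt i).1; rwa [one_mul] at h
    have hg0 : ∀ i, (g i).coeff 0 = b * p.1.1 i := fun i => by
      rw [← es i, Polynomial.coeff_zero_eq_eval_zero]
      have e2 : ((Polynomial.aeval (0 : k) : Polynomial k →ₐ[k] k)).comp (aeval L) = aeval s := by
        apply MvPolynomial.algHom_ext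
        intro w
        rw [AlgHom.comp_apply, aeval_X, aeval_X, Polynomial.coe_aeval_eq_eval]
        simp [L]
      have e3 := congrArg (fun χ : MvPolynomial (Fin 2) k →ₐ[k] k => χ (ψ i)) e2
      simp only [AlgHom.comp_apply] at e3
      rw [Polynomial.coe_aeval_eq_eval] at e3
      exact e3
    have hgG : ∀ l, aeval g (G l) = 0 := fun l => by
      have h := congrArg (aeval L) (hψG l)
      rw [aeval_bind₁, map_zero] at h
      exact h
    obtain ⟨S, h, hS, hh0, hhS, hz⟩ := Pool.Agent.Helper4.WS.section_good hk hn hd h1 h2 hsum M g hgdeg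
    let ψ' : Fin m → MvPolynomial (Fin 2) k := fun i => (g i).homogenize M
    let φ' : Fin n → MvPolynomial (Fin 2) k := fun i => (h i).homogenize S
    have hcurve : ∀ j, bind₁ (Sum.elim ψ' φ') (F j) = 0 := fun j => by
      have h3 := Pool.Agent.Helper4.WS.bind_homogenize (Pool.Agent.Helper4.WS.hw3 (h1 j) (h2 j) M S) (Sum.elim g h)
        (by rintro (i | i)
            · exact hgdeg i
            · exact hS i) (hz j)
      have h4 : (fun i => (Sum.elim g h i).homogenize (Pool.Agent.Helper4.WS.w3 m n M S i)) = Sum.elim ψ' φ' := by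
        funext i
        rcases i with i | i <;> rfl
      rw [h4] at h3
      exact h3
    have hcurveG : ∀ l, bind₁ ψ' (G l) = 0 := fun l => by
      have h3 : IsWeightedHomogeneous (fun _ : Fin m => M) (G l) (M * e l) := by
        intro x hx
        have e1 := Pool.Agent.Helper4.WS.wsum (a := (1 : Fin m → ℕ)) (hG l) (mem_support_iff.2 hx)
        rw [Finsupp.weight_apply, Finsupp.sum_fintype _ _ (by simp), ← e1, Finset.mul_sum]
        exact Finset.sum_congr rfl fun i _ => by simp [mul_comm]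
      exact Pool.Agent.Helper4.WS.bind_homogenize h3 g hgdeg (hgG l)
    have hzero : ∀ (u : Fin 2 → k) (j : Fin r),
        eval (Sum.elim (fun i => eval u (ψ' i)) (fun i => eval u (φ' i))) (F j) = 0 := fun u j => by
      have h3 : aeval u (bind₁ (Sum.elim ψ' φ') (F j)) = 0 := by rw [hcurve j, map_zero]
      rw [aeval_bind₁] at h3
      have h4 : (fun i => aeval u (Sum.elim ψ' φ' i)) =
          Sum.elim (fun i => eval u (ψ' i)) (fun i => eval u (φ' i)) := by
        funext i
        rcases i with i | i <;> rfl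
      rw [h4] at h3
      exact h3
    have hψ0 : (fun i => eval ![0, 1] (ψ' i)) = fun i => b * p.1.1 i := by
      funext i
      have h5 := Pool.Agent.Helper4.WS.eval_zero_one_homogenize (g i) M (hgdeg i)
      rw [hg0 i] at h5
      exact h5
    have hψ1 : (fun i => eval ![1, 0] (ψ' i)) = fun i => b' * p'.1.1 i := by
      funext i
      have h5 := Pool.Agent.K369.eval_one_zero_homogenize (g i) M
      rw [hgM i] at h5
      exact h5
    have hφ0 : (fun i => eval ![0, 1] (φ' i)) = fun i => (h i).coeff 0 := by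
      funext i
      have h5 := Pool.Agent.Helper4.WS.eval_zero_one_homogenize (h i) S (hS i)
      exact h5
    have hφ1 : (fun i => eval ![1, 0] (φ' i)) = fun i => (h i).coeff S := by
      funext i
      have h5 := Pool.Agent.K369.eval_one_zero_homogenize (h i) S
      exact h5
    have sc : ∀ (b : k) (hb : b ≠ 0) (y : Fin m → k) (x : Fin n → k) (j : Fin r),
        eval (Sum.elim (fun i => b * y i) x) (F j) = 0 → eval (Sum.elim y x) (F j) = 0 := by
      intro b hb y x j h0
      have e4 := Pool.Agent.Helper4.WS.aeval_scale (h2 j) b (Sum.elim y x)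
      have e5 : (fun i => b ^ Pool.Agent.Helper4.WS.w2 m n i * Sum.elim y x i) = Sum.elim (fun i => b * y i) x := by
        funext i
        rcases i with i | i
        · simp [Pool.Agent.Helper4.WS.w2]
        · simp [Pool.Agent.Helper4.WS.w2]
      rw [e5] at e4
      have e6 : aeval (Sum.elim (fun i => b * y i) x) (F j) = 0 := h0
      rw [e6] at e4
      exact (mul_eq_zero.1 e4.symm).resolve_left (pow_ne_zero _ hb)
    let A0 : PtX G F := ⟨(p.1.1, fun i => (h i).coeff 0), p.2.1, hh0, p.2.2.2.1, fun j => sc b hb _ _ j (by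
      have := hzero ![0, 1] j
      rwa [hψ0, hφ0] at this)⟩
    let A1 : PtX G F := ⟨(p'.1.1, fun i => (h i).coeff S), p'.2.1, hhS, p'.2.2.2.1, fun j => sc b' hb' _ _ j (by
      have := hzero ![1, 0] j
      rwa [hψ1, hφ1] at this)⟩
    have lk : LinkX G F A0.1 A1.1 := by
      refine ⟨M, S, ψ', φ', fun i => Polynomial.isHomogeneous_homogenize _, fun i =>
        Polynomial.isHomogeneous_homogenize _, hcurveG, hcurve, ![0, 1], ![1, 0], b, b', 1, 1, ?_, ?_, hb, hb',
        one_ne_zero, one_ne_zero, fun i => congrFun hψ0 i, fun i => ?_, fun i => congrFun hψ1 i, fun i => ?_⟩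
      · intro h0; have := congrFun h0 1; simp at this
      · intro h0; have := congrFun h0 0; simp at this
      · rw [one_mul]; exact congrFun hφ0 i
      · rw [one_mul]; exact congrFun hφ1 i
    have h9 : (Quot.mk (fun A B : PtX G F => LinkX G F A.1 B.1) A0) = Quot.mk _ A1 := Quot.sound lk
    exact (fibre p A0 rfl).trans (h9.trans (fibre A1 p' rfl))
  have gen : ∀ y y' : PtY G, Relation.EqvGen (fun A B : PtY G => LinkY G A.1 B.1) y y' →
      ∀ p p' : PtX G F, p.1.1 = y.1 → p'.1.1 = y'.1 →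
        (Quot.mk (fun A B : PtX G F => LinkX G F A.1 B.1) p) = Quot.mk _ p' := by
    intro y y' hyy
    induction hyy with
    | rel A B hAB =>
      intro p p' hp hp'
      exact key p p' (by rw [hp, hp']; exact hAB)
    | refl A => intro p p' hp hp'; exact fibre p p' (hp.trans hp'.symm)
    | symm A B _ ih => intro p p' hp hp'; exact (ih p' p hp' hp).symm
    | trans A B D _ _ ih1 ih2 =>
      intro p p' hp hp'
      obtain ⟨w, hw⟩ := surj B
      exact (ih1 p w hp hw).trans (ih2 w p' hw hp')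
  constructor
  · intro x x' hxx
    obtain ⟨p, rfl⟩ := Quot.exists_rep x
    obtain ⟨p', rfl⟩ := Quot.exists_rep x'
    exact gen _ _ (Quot.eqvGen_exact hxx) p p' rfl rfl
  · intro y
    obtain ⟨y, rfl⟩ := Quot.exists_rep y
    obtain ⟨p, hp⟩ := surj y
    refine ⟨Quot.mk _ p, ?_⟩
    show Quot.mk _ _ = Quot.mk _ _
    congr 1
    exact Subtype.ext hp

/-- Let `k` be a `C₁` field which has a field extension of every prime degree, `Y` a closed subscheme of `ℙ^(m-1)` over `k`,
and `X` the closed subscheme of `Y × ℙ^(n-1)` defined by forms `F j` which are homogeneous of degree `d j ≥ 1` in the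
coordinates of `ℙ^(n-1)` and of degree `c j` in the coordinates of `ℙ^(m-1)`. If `∑ (d j) ^ 2 < n` then
`X(k)/R → Y(k)/R` is bijective. -/
theorem result {k : Type u} [Field k] (hk : IsC1 k)
    (hext : ∀ ℓ : ℕ, ℓ.Prime → ∃ (L : Type u) (_ : Field L) (_ : Algebra k L), Module.finrank k L = ℓ)
    {m n q r : ℕ} (G : Fin q → MvPolynomial (Fin m) k) (e : Fin q → ℕ) (hG : ∀ l, (G l).IsHomogeneous (e l))
    (F : Fin r → MvPolynomial (Fin m ⊕ Fin n) k) (c d : Fin r → ℕ) (hd : ∀ j, 1 ≤ d j)
    (h1 : ∀ j, IsWeightedHomogeneous (Sum.elim (fun _ => 0) (fun _ => 1) : Fin m ⊕ Fin n → ℕ) (F j) (d j))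
    (h2 : ∀ j, IsWeightedHomogeneous (Sum.elim (fun _ => 1) (fun _ => 0) : Fin m ⊕ Fin n → ℕ) (F j) (c j))
    (hsum : ∑ j, d j ^ 2 < n) :
    Function.Bijective (projR G F) := by
  have hn : ∀ e, 1 ≤ e → Pool.Agent.K369.HasNormic k e := by
    refine Pool.Agent.K369.hasNormic_of_primes fun ℓ hℓ => ?_
    obtain ⟨L, i1, i2, hL⟩ := hext ℓ hℓ
    have : FiniteDimensional k L := Module.finite_of_finrank_pos (by rw [hL]; exact hℓ.pos)
    rw [← hL]
    exact Pool.Agent.K369.hasNormic_of_extension L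
  exact result_aux hk hn G e hG F c d hd h1 h2 hsum

end Pool.Agent.Results.MP_b5db37_ag.FamiliesOverAnyBase
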