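import Pool.Agent.Helper4.WR.Fin

/-!
# R-equivalence on weighted projective schemes over `C₁` fields

Let `k` be a `C₁` field which has an extension of every prime degree (for instance a finite field, `ℂ(t)` or
`ℂ((t))`), and let `X` be the closed subscheme of the weighted projective space `ℙ(a_1, …, a_m)` over `k` defined by
forms `F_1, …, F_r` of weighted degrees `d_1, …, d_r`. Suppose that `X` has no rational point at which all coordinates of
weight `1` vanish. (This holds for example if `X` is finite over a projective space, by the coordinates of weight `1`: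
cyclic and iterated covers of `ℙⁿ` and of complete intersections.) If `∑ d_j ^ 2 < ∑ a_i ^ 2` then `X(k)` is not
empty, any two points of `X(k)` are joined by a chain of two rational curves over `k` of degree one with respect to
`𝒪(1)`, and `X(k)/R` has exactly one element. There is no assumption on the singularities of `X`.

Proof. Let `P`, `Q` be two points. The curves of degree one through `P` are of the form
`x_i = P_i s ^ a_i + c_{i,1} s ^ (a_i - 1) t + ⋯ + c_{i,a_i} t ^ a_i`; the coefficient of `s ^ (d_j - u) t ^ u` in `F_j(x)` is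
a form of weight `u` in the `c_{i,u}`, where the weight of `c_{i,u}` is `u`. Take a second curve, with coefficients
`c'_{i,u}`, through `Q`, with `c'_{i,a_i} = c_{i,a_i}`; so the curves meet in a point `R` for `s = 0`. Each unknown of
weight `u` is replaced by a form of degree `u` in `u` variables without a nontrivial zero (a norm form). There are
`∑ a_i ^ 2` variables and the degrees of the equations have the sum `∑ d_j ^ 2`, so there is a nontrivial solution
by a theorem of Lang. If `R = 0` then the coordinates of weight `1` of both curves are constant, and then all their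
coordinates are: otherwise the leading coefficients of the coordinates `x_i(1, t)` for which `deg x_i / a_i` is maximal
are the coordinates of a zero of the `F_j` with vanishing coordinates of weight `1`. So the solution is trivial.
-/

set_option autoImplicit false

universe u

namespace Pool.Agent.Results.MP_b5db37_ag.WeightedSchemes

open MvPolynomial

/-- The field `k` is `C₁`: every form of degree `d ≥ 1` in `n > d` variables over `k` has a nontrivial zero. -/
def IsC1 (k : Type u) [Field k] : Prop :=
  ∀ (n d : ℕ) (f : MvPolynomial (Fin n) k), 1 ≤ d → d < n → f.IsHomogeneous d →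
    ∃ x : Fin n → k, x ≠ 0 ∧ eval x f = 0

/-- The coordinate vectors over `k` of the rational points of the closed subscheme `X : F 0 = ⋯ = F (r - 1) = 0` of a
weighted projective space. (Two vectors `x`, `y` define the same point if `x i = c ^ a i * y i` for some `c ≠ 0`; they are
then joined by a constant map, see `Joined`.) -/
def Pt {k : Type u} [Field k] {m r : ℕ} (F : Fin r → MvPolynomial (Fin m) k) : Type u :=
  {x : Fin m → k // x ≠ 0 ∧ ∀ j, eval x (F j) = 0}

/-- There is a rational map from `ℙ¹` to `X` over `k`, of degree `N` with respect to `𝒪(1)`, whose image contains the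
points with the coordinate vectors `x`, `y`: it is given by forms `φ i` of degree `N * a i` in two variables with
`F j (φ) = 0` identically, and there are points `s`, `t` of `ℙ¹(k)` such that `φ(s)` and `φ(t)` are coordinate vectors of
these points. -/
def Joined {k : Type u} [Field k] {m r : ℕ} (N : ℕ) (a : Fin m → ℕ) (F : Fin r → MvPolynomial (Fin m) k)
    (x y : Fin m → k) : Prop :=
  ∃ φ : Fin m → MvPolynomial (Fin 2) k, (∀ i, (φ i).IsHomogeneous (N * a i)) ∧ (∀ j, bind₁ φ (F j) = 0) ∧
    ∃ (s t : Fin 2 → k) (b c : k), s ≠ 0 ∧ t ≠ 0 ∧ b ≠ 0 ∧ c ≠ 0 ∧ (∀ i, eval s (φ i) = b ^ a i * x i) ∧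
      ∀ i, eval t (φ i) = c ^ a i * y i

/-- The set `X(k)/R`: the quotient of `X(k)` by the equivalence relation generated by the direct links. -/
def RClasses {k : Type u} [Field k] {m r : ℕ} (a : Fin m → ℕ) (F : Fin r → MvPolynomial (Fin m) k) : Type u :=
  Quot (fun A B : Pt F => ∃ N : ℕ, Joined N a F A.1 B.1)

/-- Let `k` be a `C₁` field which has a field extension of every prime degree, `X` the closed subscheme of the weighted
projective space with weights `a i ≥ 1` over `k` defined by forms `F j` of weighted degrees `d j ≥ 1`, without a rational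
point at which all coordinates of weight `1` vanish, and `∑ (d j) ^ 2 < ∑ (a i) ^ 2`. Then `X(k)` is not empty, any two
points of `X(k)` are joined by a chain of two rational curves over `k` of degree one, and `X(k)/R` has exactly one
element. -/
theorem result {k : Type u} [Field k] (hk : IsC1 k)
    (hext : ∀ ℓ : ℕ, ℓ.Prime → ∃ (L : Type u) (_ : Field L) (_ : Algebra k L), Module.finrank k L = ℓ)
    {m r : ℕ} (a : Fin m → ℕ) (ha : ∀ i, 1 ≤ a i) (d : Fin r → ℕ) (hd : ∀ j, 1 ≤ d j)
    (F : Fin r → MvPolynomial (Fin m) k) (hF : ∀ j, IsWeightedHomogeneous a (F j) (d j))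
    (hfin : ∀ x : Fin m → k, (∀ j, eval x (F j) = 0) → (∀ i, a i = 1 → x i = 0) → x = 0)
    (hsum : ∑ j, d j ^ 2 < ∑ i, a i ^ 2) :
    Nonempty (Pt F) ∧ (∀ x y : Pt F, ∃ z : Pt F, Joined 1 a F x.1 z.1 ∧ Joined 1 a F y.1 z.1) ∧
      Nat.card (RClasses a F) = 1 := by
  have hn : ∀ e, 1 ≤ e → Pool.Agent.K369.HasNormic k e := by
    refine Pool.Agent.K369.hasNormic_of_primes fun ℓ hℓ => ?_
    obtain ⟨L, i1, i2, hL⟩ := hext ℓ hℓ
    haveI : FiniteDimensional k L := Module.finite_of_finrank_pos (by rw [hL]; exact hℓ.pos)
    rw [← hL]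
    exact Pool.Agent.K369.hasNormic_of_extension L
  have hc := fun (P Q : Fin m → k) => Pool.Agent.Helper4.WR.chain (P := P) (Q := Q) hk hn ha hd hF hfin hsum
  have h0 : ∀ j, eval (0 : Fin m → k) (F j) = 0 := by
    intro j
    have h1 := Pool.Agent.Helper4.WR.eval_zero' ha (hd j) (hF j)
    exact h1
  have hne : Nonempty (Pt F) := by
    obtain ⟨R, hR, hR0, -⟩ := hc 0 0 h0 h0
    exact ⟨⟨R, hR, hR0⟩⟩
  have hch : ∀ x y : Pt F, ∃ z : Pt F, Joined 1 a F x.1 z.1 ∧ Joined 1 a F y.1 z.1 := by
    intro x y
    obtain ⟨R, hR, hR0, h1, h2⟩ := hc x.1 y.1 x.2.2 y.2.2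
    exact ⟨⟨R, hR, hR0⟩, h1, h2⟩
  refine ⟨hne, hch, ?_⟩
  obtain ⟨x⟩ := hne
  rw [Nat.card_eq_one_iff_exists]
  refine ⟨Quot.mk _ x, fun c => ?_⟩
  obtain ⟨y, rfl⟩ := Quot.exists_rep c
  obtain ⟨z, h1, h2⟩ := hch x y
  exact (Quot.sound ⟨1, h2⟩).trans (Quot.sound ⟨1, h1⟩).symm

end Pool.Agent.Results.MP_b5db37_ag.WeightedSchemes
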